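import Pool.Agent.J6H31.AV.Moment
import Pool.Agent.H620R2.Gauge.W

/-!
# Hidden blocks of ones against shallow decision trees
-/

set_option autoImplicit false

namespace Pool.Agent.J6H31.AV

open Finset H568R2 Pool.Agent.H676 Pool.Agent.H620R2.Gauge Pool.Agent.H591R3.PHG
open Pool.Agent.H591R3.PHG.FinalAux (DTv)
open Pool.Agent.NPC (pairBits)

theorem dtr_of_dtv {I : Type} [Fintype I] [DecidableEq I] {k : ℕ} :
    ∀ {f : (I → Bool) → Bool}, DTv k f → DTr k f := by
  induction k with
  | zero => intro f h; exact h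
  | succ k ih =>
    rintro f (h | ⟨i, h⟩)
    · exact Or.inl h
    · exact Or.inr ⟨i, fun b => ih (h b)⟩

/-- a tree which asks for bits of the blocks is a tree which asks for blocks of ones -/
theorem dtr_blk {G : Type} [Fintype G] [DecidableEq G] {m : ℕ} (P : G → Fin m → Bool) :
    ∀ (s : ℕ) (f : (G × Fin m → Bool) → Bool), DTr s f →
      DTr s (fun Z : G → Bool => f (fun gi => Z gi.1 || P gi.1 gi.2)) := by
  intro s
  induction s with
  | zero =>
    rintro f ⟨c, h⟩
    exact ⟨c, fun Z => h _⟩
  | succ s ih =>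
    rintro f (⟨c, h⟩ | ⟨⟨g, i⟩, h⟩)
    · exact Or.inl ⟨c, fun Z => h _⟩
    · refine Or.inr ⟨g, fun b => ?_⟩
      have h1 := DTr_update (ih _ (h (b || P g i))) g b
      refine (congrArg (DTr s) (funext fun Z => ?_)).mp h1
      show f (Function.update (fun gi : G × Fin m => Function.update Z g b gi.1 || P gi.1 gi.2)
        (g, i) (b || P g i)) = f (fun gi => Function.update Z g b gi.1 || P gi.1 gi.2)
      congr 1
      funext gi
      by_cases hgi : gi = (g, i)
      · rw [hgi, Function.update_self]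
        show (b || P g i) = (Function.update Z g b g || P g i)
        rw [Function.update_self]
      · rw [Function.update_of_ne hgi]

/-- alternating quantifiers over few short strings -/
theorem dtr_QF {I : Type} [Fintype I] [DecidableEq I] {F : List Bool → (I → Bool) → Bool}
    {m s : ℕ} : ∀ (k ℓ : ℕ), (∀ y : List Bool, y.length ≤ ℓ + k * (2 * m + 1) → DTr s (F y)) →
      ∀ (b : Bool) (y : List Bool), y.length ≤ ℓ → DTr (2 ^ (k * (m + 1)) * s) (QF m F k b y) := by
  classical
  intro k
  induction k with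
  | zero =>
    intro ℓ h b y hy
    rw [zero_mul, pow_zero, one_mul]
    cases b <;> exact h y (by omega)
  | succ k ih =>
    intro ℓ h b y hy
    have hk : ∀ (b' : Bool) (w : {w // w ∈ W_strs m}),
        DTr (2 ^ (k * (m + 1)) * s) (QF m F k b' (pairBits w.1 y)) := by
      intro b' w
      refine ih (ℓ + (2 * m + 1)) (fun y' hy' => h y' (le_of_le_of_eq hy' (by ring))) b' _ ?_
      rw [Pool.Agent.H620R2.Gauge.length_pairBits]
      have := W_length_of_mem w.2
      omega
    have hcard : 2 ^ (k * (m + 1)) * s * Fintype.card {w // w ∈ W_strs m} ≤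
        2 ^ ((k + 1) * (m + 1)) * s := by
      rw [Fintype.card_coe]
      calc 2 ^ (k * (m + 1)) * s * (W_strs m).card ≤ 2 ^ (k * (m + 1)) * s * 2 ^ (m + 1) :=
            Nat.mul_le_mul_left _ (W_card_strs m)
        _ = 2 ^ ((k + 1) * (m + 1)) * s := by
            rw [add_mul, one_mul, pow_add]
            ring
    have hall : ∀ b' : Bool, DTv (2 ^ ((k + 1) * (m + 1)) * s)
        (fun z (w : {w // w ∈ W_strs m}) => QF m F k b' (pairBits w.1 y) z) := fun b' =>
      (FinalAux.DTv.all (hk b')).mono hcard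
    cases b with
    | true =>
      refine dtr_of_dtv ?_
      have h1 := (hall false).map (fun u : {w // w ∈ W_strs m} → Bool =>
        decide (∃ w, u w = true))
      refine (congrArg (DTv _) (funext fun z => ?_)).mp h1
      show decide (∃ w : {w // w ∈ W_strs m}, QF m F k false (pairBits w.1 y) z = true) =
        decide (∃ w : List Bool, w.length ≤ m ∧ QF m F k false (pairBits w y) z = true)
      refine decide_eq_decide.2 ⟨?_, ?_⟩
      · rintro ⟨w, hw⟩
        exact ⟨w.1, W_length_of_mem w.2, hw⟩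
      · rintro ⟨w, hw1, hw2⟩
        exact ⟨⟨w, W_mem_strs hw1⟩, hw2⟩
    | false =>
      refine dtr_of_dtv ?_
      have h1 := (hall true).map (fun u : {w // w ∈ W_strs m} → Bool =>
        decide (∀ w, u w = true))
      refine (congrArg (DTv _) (funext fun z => ?_)).mp h1
      show decide (∀ w : {w // w ∈ W_strs m}, QF m F k true (pairBits w.1 y) z = true) =
        decide (∀ w : List Bool, w.length ≤ m → QF m F k true (pairBits w y) z = true)
      refine decide_eq_decide.2 ⟨?_, ?_⟩
      · intro h2 w hw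
        exact h2 ⟨w, W_mem_strs hw⟩
      · intro h2 w
        exact h2 w.1 (W_length_of_mem w.2)

/-- **The main estimate.** -/
theorem core {ρ X : Type} [Fintype ρ] [Nonempty ρ] [Fintype X] [DecidableEq X] {K m s : ℕ}
    (hm : 1 ≤ m)
    (hX : 0 < Fintype.card X) {F : ρ → X → ((X × Fin K) × Fin m → Bool) → Bool}
    (hF : ∀ r x, DTr s (F r x)) {D : ℝ} (hD : 0 ≤ D) (hD2 : 2 * D ≤ Fintype.card X)
    (hK : |(1 - (1 / 2) ^ m) ^ K - 1 / 2| ≤ ((1 : ℝ) / 2) ^ m)
    (hs : 9 * ((Fintype.card X : ℝ) * (s + 1)) * (1 / 2) ^ m ≤ 1) :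
    Ex (ber (1 / 2)) (fun ω : (X × Fin K) × Fin m → Bool => if (Fintype.card X : ℝ) / 2 + D <
        avg (fun r x => F r x ω) (fun x => decide (∃ k, ∀ j, ω ((x, k), j) = true)) then (1 : ℝ)
          else 0) ≤
      Real.exp (1 - 2 * D ^ 2 / Fintype.card X) := by
  classical
  set p : ℝ := (1 / 2) ^ m with hp
  have hp0 : 0 ≤ p := by positivity
  have hp1 : p ≤ 1 := (half_pow_lt hm).le
  have hXr : (0 : ℝ) < Fintype.card X := by exact_mod_cast hX
  have hρ : (0 : ℝ) < Fintype.card ρ := by exact_mod_cast Fintype.card_pos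
  rw [Ex_mixture hm]
  refine Ex_le_of_support (nall_nonneg hm) (nall_sum hm) fun P hP => ?_
  -- no block of `P` consists of ones only
  have hP' : ∀ g, ¬ ∀ i, P g i = true := by
    intro g h
    refine hP g ?_
    unfold nall
    rw [if_pos h]
  have hval : ∀ Z : X × Fin K → Bool,
      (fun x => decide (∃ k, ∀ j, (Z (x, k) || P (x, k) j) = true)) =
        fun x => decide (∃ k, Z (x, k) = true) := by
    intro Z
    funext x
    refine decide_eq_decide.2 (exists_congr fun k => ?_)
    constructor
    · intro h7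
      by_contra h8
      rw [Bool.not_eq_true] at h8
      refine hP' (x, k) fun i => ?_
      have := h7 i
      rwa [h8, Bool.false_or] at this
    · intro h7 j
      rw [h7, Bool.true_or]
  simp only [hval]
  set t : ℝ := 2 * D / Fintype.card X with ht
  have ht0 : 0 ≤ t := by positivity
  have ht1 : t ≤ 1 := by
    rw [ht, div_le_one hXr]
    exact hD2
  refine (Ex_mono (ber_nonneg_m hp0 hp1) fun Z => ind_le ht0
    (fun r x => F r x (fun gi => Z gi.1 || P gi.1 gi.2))
    (fun x => decide (∃ k, Z (x, k) = true))).trans ?_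
  rw [Ex_smul, Ex_smul, Ex_sum]
  -- one random string
  have h1 : ∀ r : ρ, Ex (ber p) (fun Z : X × Fin K → Bool => ∏ x, Real.exp
      (if F r x (fun gi => Z gi.1 || P gi.1 gi.2) = decide (∃ k, Z (x, k) = true) then t
        else -t)) ≤ Real.exp (Fintype.card X * (t ^ 2 / 2) + 1) := by
    intro r
    have h2 : DTv (s * Fintype.card X) (fun (Z : X × Fin K → Bool) (x : X) =>
        F r x (fun gi => Z gi.1 || P gi.1 gi.2)) :=
      FinalAux.DTv.all fun x => dtr_blk P s _ (hF r x)
    have h3 := moment (K := K) hp0 hp1 ht0 ht1 (fun (Z : X × Fin K → Bool) (x : X) =>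
      F r x (fun gi => Z gi.1 || P gi.1 gi.2)) (s * Fintype.card X) (fun _ => none) h2
    refine h3.trans ?_
    have h4 : ∀ x : X, cs p t (fun _ : X × Fin K => none) x ≤ Real.exp (t ^ 2 / 2 + 3 * p) := by
      intro x
      unfold cs
      rw [if_neg (by simp)]
      have h5 : (univ.filter fun _ : Fin K => (none : Option Bool) = none).card = K := by
        simp
      rw [h5]
      unfold cc
      have h6 := Real.cosh_le_exp_half_sq t
      have h7 : |2 * (1 - p) ^ K - 1| ≤ 2 * p := by
        have : 2 * (1 - p) ^ K - 1 = 2 * ((1 - p) ^ K - 1 / 2) := by ring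
        rw [this, abs_mul, abs_two]
        linarith
      have h8 := sinh_le ht1
      have h9 : 0 ≤ Real.sinh t := Real.sinh_nonneg_iff.2 ht0
      have h10 : |2 * (1 - p) ^ K - 1| * Real.sinh t ≤ 3 * p := by
        calc |2 * (1 - p) ^ K - 1| * Real.sinh t ≤ 2 * p * (3 / 2) :=
              mul_le_mul h7 h8 h9 (by positivity)
          _ = 3 * p := by ring
      have h11 : (1 : ℝ) ≤ Real.exp (t ^ 2 / 2) := Real.one_le_exp (by positivity)
      have h12 : 3 * p + 1 ≤ Real.exp (3 * p) := Real.add_one_le_exp _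
      rw [Real.exp_add]
      nlinarith
    have h5 : ∏ x : X, cs p t (fun _ : X × Fin K => none) x ≤
        Real.exp (Fintype.card X * (t ^ 2 / 2 + 3 * p)) := by
      calc ∏ x : X, cs p t (fun _ : X × Fin K => none) x ≤
            ∏ _x : X, Real.exp (t ^ 2 / 2 + 3 * p) :=
            Finset.prod_le_prod (fun x _ => zero_le_one.trans (one_le_cs ht0 _ x)) fun x _ => h4 x
        _ = Real.exp (Fintype.card X * (t ^ 2 / 2 + 3 * p)) := by
            rw [Finset.prod_const, Finset.card_univ, ← Real.exp_nat_mul]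
    have h6 : (1 + 9 * p) ^ (s * Fintype.card X) ≤
        Real.exp ((s * Fintype.card X : ℕ) * (9 * p)) := by
      rw [Real.exp_nat_mul]
      refine pow_le_pow_left₀ (by positivity) ?_ _
      have := Real.add_one_le_exp (9 * p)
      linarith
    calc (1 + 9 * p) ^ (s * Fintype.card X) * ∏ x, cs p t (fun _ : X × Fin K => none) x
        ≤ Real.exp ((s * Fintype.card X : ℕ) * (9 * p)) *
            Real.exp (Fintype.card X * (t ^ 2 / 2 + 3 * p)) :=
          mul_le_mul h6 h5 (Finset.prod_nonneg fun x _ =>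
            zero_le_one.trans (one_le_cs ht0 _ x)) (Real.exp_pos _).le
      _ ≤ Real.exp (Fintype.card X * (t ^ 2 / 2) + 1) := by
          rw [← Real.exp_add]
          refine Real.exp_le_exp.2 ?_
          push_cast
          have h7 : 9 * ((Fintype.card X : ℝ) * (s + 1)) * p ≤ 1 := hs
          have h8 : 0 ≤ (Fintype.card X : ℝ) * p := by positivity
          nlinarith
  have h2 : 1 / (Fintype.card ρ : ℝ) * ∑ r : ρ, Ex (ber p) (fun Z : X × Fin K → Bool =>
      ∏ x, Real.exp (if F r x (fun gi => Z gi.1 || P gi.1 gi.2) =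
        decide (∃ k, Z (x, k) = true) then t else -t)) ≤
      Real.exp (Fintype.card X * (t ^ 2 / 2) + 1) := by
    rw [one_div_mul_eq_div, div_le_iff₀ hρ]
    refine (Finset.sum_le_sum fun r _ => h1 r).trans (le_of_eq ?_)
    rw [Finset.sum_const, nsmul_eq_mul, Finset.card_univ, mul_comm]
  refine (mul_le_mul_of_nonneg_left h2 (Real.exp_pos _).le).trans ?_
  rw [← Real.exp_add]
  refine Real.exp_le_exp.2 (le_of_eq ?_)
  rw [ht]
  field_simp
  ring

end Pool.Agent.J6H31.AV
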