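import Pool.Agent.J6H7.RO.Dtr
import Pool.Agent.H591R3.PHG.Main

/-!
# Hidden blocks of ones: shallow decision trees do not see them

The inputs are the elements of a finite type `X`; every input has `K` blocks of `m` random bits,
and its value is true if one of its blocks consists of ones only. Functions with short
certificates agree with these values for hardly more than half of the inputs.
-/

set_option autoImplicit false

namespace Pool.Agent.J6H31.AV

open Finset H568R2 Pool.Agent.H676 Pool.Agent.H620R2.Gauge Pool.Agent.H591R3.PHG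

theorem ber_half (b : Bool) : ber (1 / 2) b = 1 / 2 := by
  unfold ber
  cases b <;> norm_num

/-- the uniform law on the blocks which do not consist of ones only -/
noncomputable def nall (m : ℕ) (P : Fin m → Bool) : ℝ :=
  if ∀ i, P i = true then 0 else (1 / 2) ^ m / (1 - (1 / 2) ^ m)

theorem half_pow_lt {m : ℕ} (hm : 1 ≤ m) : ((1 : ℝ) / 2) ^ m < 1 :=
  pow_lt_one₀ (by norm_num) (by norm_num) (by omega)

theorem nall_nonneg {m : ℕ} (hm : 1 ≤ m) (P : Fin m → Bool) : 0 ≤ nall m P := by
  unfold nall
  have := half_pow_lt hm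
  split_ifs
  · exact le_rfl
  · exact div_nonneg (by positivity) (by linarith)

theorem all_ones_iff {m : ℕ} (P : Fin m → Bool) : (∀ i, P i = true) ↔ P = fun _ => true :=
  ⟨fun h => funext h, fun h i => by rw [h]⟩

theorem nall_sum {m : ℕ} (hm : 1 ≤ m) : ∑ P, nall m P = 1 := by
  classical
  have h1 := half_pow_lt hm
  unfold nall
  simp only [all_ones_iff]
  rw [Finset.sum_ite, Finset.sum_const_zero, zero_add, Finset.sum_const, nsmul_eq_mul]
  have h2 : (univ.filter fun P : Fin m → Bool => ¬ P = fun _ => true) =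
      univ.erase (fun _ => true) := by
    ext P
    simp
  rw [h2, Finset.card_erase_of_mem (Finset.mem_univ _), Finset.card_univ, Fintype.card_fun,
    Fintype.card_bool, Fintype.card_fin, Nat.cast_sub Nat.one_le_two_pow]
  push_cast
  have h3 : ((2 : ℝ) ^ m) * (1 / 2) ^ m = 1 := by
    rw [← mul_pow]; norm_num
  rw [← mul_div_assoc, div_eq_one_iff_eq (by linarith), sub_mul, h3, one_mul]

/-- a block is all ones with probability `2 ^ (- m)` -/
theorem blk_push {m : ℕ} (hm : 1 ≤ m) (Q : Fin m → Bool) :
    ∏ i, ber (1 / 2) (Q i) = ∑ a ∈ univ.filter (fun a : (Fin m → Bool) × Bool =>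
      (fun i => a.2 || a.1 i) = Q), nall m a.1 * ber ((1 / 2) ^ m) a.2 := by
  classical
  have h1 := half_pow_lt hm
  simp only [ber_half, Finset.prod_const, Finset.card_univ, Fintype.card_fin]
  rw [Finset.sum_filter, Fintype.sum_prod_type]
  simp only [Fintype.sum_bool, Bool.true_or, Bool.false_or]
  rw [Finset.sum_add_distrib]
  have h2 : ∑ P : Fin m → Bool, (if (fun i => P i) = Q then nall m P * ber ((1 / 2) ^ m) false
      else 0) = nall m Q * (1 - (1 / 2) ^ m) := by
    rw [Finset.sum_eq_single Q]
    · rw [if_pos rfl]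
      rfl
    · intro P _ hP
      rw [if_neg hP]
    · intro h
      exact absurd (Finset.mem_univ _) h
  rw [h2]
  have h3 : ∑ P : Fin m → Bool, (if (fun _ : Fin m => true) = Q then
      nall m P * ber ((1 / 2) ^ m) true else 0) =
      if Q = fun _ => true then ((1 : ℝ) / 2) ^ m else 0 := by
    by_cases hQ : (fun _ : Fin m => true) = Q
    · simp only [if_pos hQ, if_pos hQ.symm]
      rw [← Finset.sum_mul, nall_sum hm, one_mul]
      rfl
    · simp only [if_neg hQ, if_neg (Ne.symm hQ), Finset.sum_const_zero]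
  rw [h3]
  unfold nall
  simp only [all_ones_iff]
  by_cases hQ : Q = fun _ => true
  · rw [if_pos hQ, if_pos hQ]; ring
  · rw [if_neg hQ, if_neg hQ, div_mul_cancel₀ _ (by linarith)]
    ring

/-- **The mixture.** First the blocks which do not consist of ones only, then the positions of the
blocks of ones. -/
theorem Ex_mixture {G : Type} [Fintype G] [DecidableEq G] {m : ℕ} (hm : 1 ≤ m)
    (F : (G × Fin m → Bool) → ℝ) :
    Ex (ber (1 / 2)) F = Ex (nall m) (fun P : G → Fin m → Bool =>
      Ex (ber ((1 / 2) ^ m)) (fun Z : G → Bool => F (fun gi => Z gi.1 || P gi.1 gi.2))) := by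
  classical
  rw [Ex_curry]
  have h1 := Ex_push (I := G) (fun a : (Fin m → Bool) × Bool => fun i => a.2 || a.1 i)
    (fun a => nall m a.1 * ber ((1 / 2) ^ m) a.2) (fun Q => ∏ i, ber (1 / 2) (Q i))
    (fun Q => blk_push hm Q) (fun σ => F (fun gi => σ gi.1 gi.2))
  refine Eq.trans ?_ (h1.symm.trans (Ex_prod _ _ _))
  rfl

theorem Ex_le_of_support {G A : Type} [Fintype G] [DecidableEq G] [Fintype A] {w : A → ℝ}
    (hw : ∀ a, 0 ≤ w a) (hs : ∑ a, w a = 1) {F : (G → A) → ℝ} {c : ℝ}
    (h : ∀ ω, (∀ g, w (ω g) ≠ 0) → F ω ≤ c) : Ex w F ≤ c := by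
  rw [← Ex_const (I := G) hs c]
  unfold Ex
  refine Finset.sum_le_sum fun ω _ => ?_
  by_cases h0 : ∏ i, w (ω i) = 0
  · rw [h0, zero_mul, zero_mul]
  · refine mul_le_mul_of_nonneg_left (h ω fun g hg => h0 ?_) (Finset.prod_nonneg fun i _ => hw _)
    exact Finset.prod_eq_zero (Finset.mem_univ g) hg

/-- the inputs are independent -/
theorem Ex_blocks {X A : Type} [Fintype X] [DecidableEq X] [Fintype A] {K : ℕ} (w : A → ℝ)
    (φ : X → (Fin K → A) → ℝ) :
    Ex w (fun Z : X × Fin K → A => ∏ x, φ x (fun k => Z (x, k))) = ∏ x, Ex w (φ x) := by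
  classical
  rw [Ex_curry]
  unfold Ex
  rw [Finset.prod_univ_sum, Fintype.piFinset_univ]
  refine Finset.sum_congr rfl fun σ _ => ?_
  rw [← Finset.prod_mul_distrib]

/-- the number of the inputs for which `f` and `g` agree -/
def agr {X : Type} [Fintype X] (f g : X → Bool) : ℕ := (univ.filter fun x => f x = g x).card

theorem agr_sum {X : Type} [Fintype X] (f g : X → Bool) (t : ℝ) :
    ∑ x, (if f x = g x then t else -t) = t * (2 * agr f g - Fintype.card X) := by
  rw [Finset.sum_ite, Finset.sum_const, Finset.sum_const, nsmul_eq_mul, nsmul_eq_mul]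
  have h := Finset.card_filter_add_card_filter_not (s := (univ : Finset X)) (fun x => f x = g x)
  rw [Finset.card_univ] at h
  have h1 : ((univ.filter fun x => ¬ f x = g x).card : ℝ) = Fintype.card X - agr f g := by
    rw [← h]
    unfold agr
    push_cast
    ring
  rw [h1]
  unfold agr
  ring

/-- the functions of a random value `r` agree with `g` on that many inputs, in the average -/
noncomputable def avg {ρ X : Type} [Fintype ρ] [Fintype X] (f : ρ → X → Bool) (g : X → Bool) : ℝ :=
  (∑ r, (agr (f r) g : ℝ)) / Fintype.card ρ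

theorem exp_avg {ρ : Type} [Fintype ρ] [Nonempty ρ] (s : ρ → ℝ) :
    Real.exp ((∑ r, s r) / Fintype.card ρ) ≤ (∑ r, Real.exp (s r)) / Fintype.card ρ := by
  have hc : (0 : ℝ) < Fintype.card ρ := by exact_mod_cast Fintype.card_pos
  have h := convexOn_exp.map_sum_le (t := (univ : Finset ρ)) (w := fun _ => 1 / (Fintype.card ρ : ℝ))
    (p := s) (fun _ _ => by positivity) (by
      rw [Finset.sum_const, nsmul_eq_mul, Finset.card_univ]
      field_simp) (fun _ _ => Set.mem_univ _)
  simp only [smul_eq_mul] at h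
  rw [← Finset.mul_sum, ← Finset.mul_sum, one_div_mul_eq_div, one_div_mul_eq_div] at h
  exact h

/-- **Markov's inequality for the exponential moment.** -/
theorem ind_le {ρ X : Type} [Fintype ρ] [Nonempty ρ] [Fintype X] {t D : ℝ} (ht0 : 0 ≤ t)
    (f : ρ → X → Bool) (g : X → Bool) :
    (if (Fintype.card X : ℝ) / 2 + D < avg f g then (1 : ℝ) else 0) ≤
      Real.exp (-(2 * t * D)) * (1 / Fintype.card ρ * ∑ r, ∏ x,
        Real.exp (if f r x = g x then t else -t)) := by
  classical
  have hc : (0 : ℝ) < Fintype.card ρ := by exact_mod_cast Fintype.card_pos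
  have h2 : Real.exp (t * (2 * avg f g - Fintype.card X)) ≤ 1 / Fintype.card ρ * ∑ r, ∏ x,
      Real.exp (if f r x = g x then t else -t) := by
    have h3 := exp_avg (fun r => t * (2 * agr (f r) g - Fintype.card X))
    have h4 : (∑ r : ρ, t * (2 * (agr (f r) g : ℝ) - Fintype.card X)) / Fintype.card ρ =
        t * (2 * avg f g - Fintype.card X) := by
      unfold avg
      rw [← Finset.mul_sum, Finset.sum_sub_distrib, Finset.sum_const, ← Finset.mul_sum,
        nsmul_eq_mul, Finset.card_univ]
      field_simp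
    rw [h4] at h3
    refine h3.trans (le_of_eq ?_)
    rw [one_div_mul_eq_div]
    congr 1
    refine Finset.sum_congr rfl fun r _ => ?_
    rw [← Real.exp_sum, ← agr_sum (f r) g t]
  split_ifs with h
  · refine le_trans ?_ (mul_le_mul_of_nonneg_left h2 (Real.exp_pos _).le)
    rw [← Real.exp_add]
    refine Real.one_le_exp ?_
    have : 0 ≤ t * (avg f g - ((Fintype.card X : ℝ) / 2 + D)) := mul_nonneg ht0 (by linarith)
    nlinarith
  · positivity

end Pool.Agent.J6H31.AV
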