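import Pool.Agent.J6H31.AV.Table

/-!
# The probability that a machine agrees with the language on many strings of one length
-/

set_option autoImplicit false

namespace Pool.Agent.J6H31.AV

open Pool.Agent.NPC Finset H568R2 Pool.Agent.H676 Pool.Agent.H620R2.Gauge Pool.Agent.H591R3.PHG
open Pool.Agent.J6H7.RO MeasureTheory Filter LangTrAux
open Pool.Agent.J6H49.PHC (mix mix_pre mix_off smp_mix quant_congr)
open Pool.Agent.J6H49.BI (LateP out_mixP prob_le_of_ovw2 fair MO_id)

theorem pairBits_inj' {x w x' w' : List Bool} (h : pairBits x w = pairBits x' w') :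
    x = x' ∧ w = w' := by
  have h1 := congrArg unpair h
  rw [unpair_pairBits, unpair_pairBits] at h1
  exact ⟨congrArg Prod.fst h1, congrArg Prod.snd h1⟩

/-- the positions of the bits of the blocks for the strings of length `n` -/
def pos (μ : ℕ → ℕ) (n : ℕ) : (Fin (2 ^ n) × Fin (KK (μ n))) × Fin (μ n) → List Bool :=
  fun i => cd (bitsOf n i.1.1.val) (bitsOf (μ n) i.1.2.val) i.2.val

theorem pos_inj (μ : ℕ → ℕ) (n : ℕ) : Function.Injective (pos μ n) := by
  rintro ⟨⟨x, k⟩, j⟩ ⟨⟨x', k'⟩, j'⟩ h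
  unfold pos cd at h
  obtain ⟨h1, h2⟩ := pairBits_inj' h
  obtain ⟨h3, h4⟩ := pairBits_inj' h2
  have e1 : x = x' := Fin.ext (bitsOf_inj x.isLt x'.isLt h1)
  have e2 : k = k' := Fin.ext (bitsOf_inj (k.isLt.trans_le (KK_le _)) (k'.isLt.trans_le (KK_le _)) h3)
  have e3 : j = j' := by
    have := congrArg List.length h4
    rw [List.length_replicate, List.length_replicate, length_bitsOf, length_bitsOf] at this
    exact Fin.ext (Nat.add_left_cancel this)
  rw [e1, e2, e3]

theorem pos_len (μ : ℕ → ℕ) (n : ℕ) (i : (Fin (2 ^ n) × Fin (KK (μ n))) × Fin (μ n)) :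
    2 ^ (n + 1) ≤ (pos μ n i).length := by
  unfold pos cd
  rw [Pool.Agent.H620R2.Gauge.length_pairBits, Pool.Agent.H620R2.Gauge.length_pairBits,
    List.length_replicate, length_bitsOf]
  omega

theorem hard_ovw {μ : ℕ → ℕ} {n : ℕ} (ω : (Fin (2 ^ n) × Fin (KK (μ n))) × Fin (μ n) → Bool)
    (A : Oracle) (x : Fin (2 ^ n)) :
    bitsOf n x.val ∈ hardA μ (ovw (pos μ n) ω A) ↔ ∃ k, ∀ j, ω ((x, k), j) = true := by
  show (∃ w, _ ∧ _) ↔ _
  simp only [tab_iff, length_bitsOf]
  constructor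
  · rintro ⟨w, ⟨k, hk, rfl⟩, h⟩
    refine ⟨⟨k, hk⟩, fun j => ?_⟩
    have h1 := h j.val (by rw [length_bitsOf]; exact j.isLt)
    have h2 := ovw_pos (pos_inj μ n) ω A ((x, ⟨k, hk⟩), j)
    rw [← h2]
    exact h1
  · rintro ⟨k, h⟩
    refine ⟨bitsOf (μ n) k.val, ⟨k.val, k.isLt, rfl⟩, fun j hj => ?_⟩
    rw [length_bitsOf] at hj
    have h2 := ovw_pos (pos_inj μ n) ω A ((x, k), ⟨j, hj⟩)
    rw [h ⟨j, hj⟩] at h2
    exact h2

/-- The input of the machines: the string `x`, the advice `w` and the random string `r`. -/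
def inW (x w r : List Bool) : List Bool := pairBits x (pairBits w r)

/-- a polynomial bound -/
noncomputable def plP (c : ℕ) : Polynomial ℕ := 10 * Polynomial.X + Polynomial.X ^ c

theorem inW_le {c n k g : ℕ} {x w r : List Bool} (hx : x.length = n) (hw : w.length ≤ 2 ^ n)
    (hr : r.length = 2 ^ (c * (n + 1))) (hg : k * (g + 1) ≤ 2 ^ (n + 1)) :
    (inW x w r).length + k * (2 * g + 1) ≤ (plP c).eval (2 ^ (n + 1)) := by
  unfold inW plP
  rw [Pool.Agent.H620R2.Gauge.length_pairBits, Pool.Agent.H620R2.Gauge.length_pairBits, hx, hr]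
  simp only [Polynomial.eval_add, Polynomial.eval_mul, Polynomial.eval_X, Polynomial.eval_pow,
    Polynomial.eval_ofNat]
  have h1 : n + 1 ≤ 2 ^ n := Nat.lt_two_pow_self
  have h2 : 2 ^ (c * (n + 1)) = (2 ^ (n + 1)) ^ c := by
    rw [← pow_mul, mul_comm]
  rw [h2]
  have h3 : 2 ^ (n + 1) = 2 * 2 ^ n := by rw [pow_succ, mul_comm]
  have h4 : k * (2 * g + 1) ≤ 2 * (k * (g + 1)) := by
    have : k * (2 * g + 1) + k = 2 * (k * (g + 1)) := by ring
    omega
  omega

open Classical in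
/-- the machine agrees with the language on many strings of length `n`, with the advice `w` -/
def Ev (μ : ℕ → ℕ) (O : Oracle → Oracle) (M : Alg) (k c g n : ℕ) (w : List Bool) : Set Oracle :=
  {A | ((2 : ℝ) ^ n) / 2 + Real.sqrt (2 ^ n * (w.length + n)) <
    avg (fun (r : Fin (2 ^ (c * (n + 1))) → Bool) (x : Fin (2 ^ n)) =>
      decide (Quant g (outV M (O A)) k true (inW (bitsOf n x.val) w (List.ofFn r))))
      (fun x => decide (bitsOf n x.val ∈ hardA μ A))}

theorem meas_hard (μ : ℕ → ℕ) (x : List Bool) : MeasurableSet {A : Oracle | x ∈ hardA μ A} := by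
  have : {A : Oracle | x ∈ hardA μ A} = ⋃ w : List Bool, {A | tab μ (pairBits x w) = true ∧
      ∀ j < w.length, A (cd x w j) = true} := by
    ext A
    simp [hardA]
  rw [this]
  refine MeasurableSet.iUnion fun w => ?_
  have h2 : {A : Oracle | tab μ (pairBits x w) = true ∧
      ∀ j < w.length, A (cd x w j) = true} = {A | tab μ (pairBits x w) = true} ∩
      ⋂ j : ℕ, {A : Oracle | j < w.length → A (cd x w j) = true} := by
    ext A
    simp
  rw [h2]
  refine (MeasurableSet.const _).inter (MeasurableSet.iInter fun j => ?_)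
  by_cases hj : j < w.length
  · simp only [hj, true_imp_iff]
    exact MO_id _ _
  · simp only [hj, false_imp_iff]
    exact MeasurableSet.const _

theorem meas_avg {ρ X : Type} [Fintype ρ] [Fintype X] {P : ρ → X → Oracle → Bool}
    {Q : X → Oracle → Bool} (h : ∀ r x, MeasurableSet {A | P r x A = Q x A}) (θ : ℝ) :
    MeasurableSet {A | θ < avg (fun r x => P r x A) (fun x => Q x A)} := by
  classical
  have h1 : Measurable (fun A : Oracle => (∑ r : ρ, ∑ x : X,
      if P r x A = Q x A then (1 : ℝ) else 0) / Fintype.card ρ) := by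
    refine Measurable.div_const (Finset.measurable_sum _ fun r _ =>
      Finset.measurable_sum _ fun x _ => ?_) _
    exact Measurable.ite (h r x) measurable_const measurable_const
  have h2 : ∀ A : Oracle, avg (fun r x => P r x A) (fun x => Q x A) =
      (∑ r : ρ, ∑ x : X, if P r x A = Q x A then (1 : ℝ) else 0) / Fintype.card ρ := by
    intro A
    unfold avg agr
    congr 1
    refine Finset.sum_congr rfl fun r _ => ?_
    rw [Finset.sum_ite, Finset.sum_const_zero, add_zero, Finset.sum_const, nsmul_eq_mul, mul_one]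
  simp only [h2]
  exact measurableSet_lt measurable_const h1

open Classical in
theorem meas_ev (μ : ℕ → ℕ) {O : Oracle → Oracle} (hO : MO O) (M : Alg) (k c g n : ℕ)
    (w : List Bool) : MeasurableSet (Ev μ O M k c g n w) := by
  refine meas_avg (ρ := Fin (2 ^ (c * (n + 1))) → Bool) (X := Fin (2 ^ n))
    (P := fun r x A => decide (Quant g (outV M (O A)) k true
      (inW (bitsOf n x.val) w (List.ofFn r))))
    (Q := fun x A => decide (bitsOf n x.val ∈ hardA μ A)) (fun r x => ?_) _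
  have h1 : {A : Oracle | decide (Quant g (outV M (O A)) k true
      (inW (bitsOf n x.val) w (List.ofFn r))) = decide (bitsOf n x.val ∈ hardA μ A)} =
      {A | Quant g (outV M (O A)) k true (inW (bitsOf n x.val) w (List.ofFn r)) ↔
        bitsOf n x.val ∈ hardA μ A} := by
    ext A
    simp only [Set.mem_ofPred_eq, decide_eq_decide]
  exact h1 ▸ meas_iff (meas_quant hO M g k true _) (meas_hard μ _)

/-- the running time is `2 ^ O(n)` -/
theorem time_le (M : Alg) (c : ℕ) : ∃ c' : ℕ, ∀ n ≥ 1,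
    M.p.eval ((plP c).eval (2 ^ (n + 1))) ≤ 2 ^ (c' * n) := by
  set Q := M.p.comp (plP c) with hQ
  refine ⟨Q.eval 1 + 2 * Q.natDegree, fun n hn => ?_⟩
  have h1 : M.p.eval ((plP c).eval (2 ^ (n + 1))) = Q.eval (2 ^ (n + 1)) := by
    rw [hQ, Polynomial.eval_comp]
  rw [h1]
  have h3 : Q.eval (2 ^ (n + 1)) ≤ Q.eval 1 * (2 ^ (n + 1)) ^ Q.natDegree :=
    eval_le_pow Q Nat.one_le_two_pow
  have h4 : Q.eval 1 ≤ 2 ^ Q.eval 1 := Nat.lt_two_pow_self.le
  calc Q.eval (2 ^ (n + 1)) ≤ Q.eval 1 * (2 ^ (n + 1)) ^ Q.natDegree := h3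
    _ ≤ 2 ^ Q.eval 1 * (2 ^ (n + 1)) ^ Q.natDegree := Nat.mul_le_mul_right _ h4
    _ = 2 ^ (Q.eval 1 + (n + 1) * Q.natDegree) := by rw [← pow_mul, ← pow_add]
    _ ≤ 2 ^ ((Q.eval 1 + 2 * Q.natDegree) * n) := by
      apply Nat.pow_le_pow_right (by norm_num)
      obtain ⟨a, rfl⟩ : ∃ a, n = a + 1 := ⟨n - 1, by omega⟩
      nlinarith

open Classical in
/-- **The bound for one length and one advice string.** -/
theorem corr {μ : ℕ → ℕ} (hμ : ∀ n, μ n ≤ 2 ^ (n + 1)) {pre : List Bool} {O : Oracle → Oracle}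
    (hO : LateP pre O) (M : Alg) (k c : ℕ) :
    ∃ C : ℕ, ∀ n ≥ C, ∀ (w : List Bool) (g : ℕ), 4 * (w.length + n) ≤ 2 ^ n →
      k * (g + 1) + C * n ≤ μ n → prob (fun _ => fair) (Ev μ O M k c g n w) ≤
        Real.exp (1 - 2 * (w.length + n)) := by
  have htend : Tendsto (fun ν : ℕ => 2 ^ (ν + 1)) atTop atTop :=
    (tendsto_pow_atTop_atTop_of_one_lt (show 1 < 2 by norm_num)).comp (tendsto_add_atTop_nat 1)
  obtain ⟨n₀, hn₀⟩ := eventually_atTop.1 (htend.eventually (out_mixP hO M (plP c)))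
  obtain ⟨c', hc'⟩ := time_le M c
  refine ⟨n₀ + c' + 6, fun n hn w g hw hg => ?_⟩
  have h1 := hn₀ n (by omega)
  have hn1 : 1 ≤ n := by omega
  have hr := hc' n hn1
  have hkg : k * (g + 1) ≤ 2 ^ (n + 1) := by
    have := hμ n
    omega
  have hμ1 : k * (g + 1) + (c' * n + n + 5) ≤ μ n := by
    have h2 : (n₀ + c' + 6) * n = n₀ * n + c' * n + 6 * n := by ring
    have h3 : 0 ≤ n₀ * n := Nat.zero_le _
    omega
  have hmS := meas_ev μ hO.meas M k c g n w
  have hwn : w.length ≤ 2 ^ n := by omega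
  have key := prob_le_of_ovw2 (q := fair) (pos_inj μ n) hmS hmS (κ := 0)
    (ε := Real.exp (1 - 2 * (w.length + n))) fun A => ?_
  · linarith
  rw [zero_mul, zero_add]
  -- the changed oracles agree with `A` below `2 ^ (n + 1)`
  have hoff : ∀ (ω : (Fin (2 ^ n) × Fin (KK (μ n))) × Fin (μ n) → Bool)
      (x : List Bool), x.length < 2 ^ (n + 1) → ovw (pos μ n) ω A x = A x := by
    intro ω x hx
    exact ovw_off _ _ fun i hi => by
      have := pos_len μ n i
      rw [hi] at this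
      omega
  have hlen : ∀ (r : Fin (2 ^ (c * (n + 1))) → Bool) (x : Fin (2 ^ n)),
      (inW (bitsOf n x.val) w (List.ofFn r)).length + k * (2 * g + 1) ≤
        (plP c).eval (2 ^ (n + 1)) := fun r x =>
    inW_le (length_bitsOf _ _) hwn (List.length_ofFn) hkg
  -- the formulas
  set G : List Bool → ((Fin (2 ^ n) × Fin (KK (μ n))) × Fin (μ n) → Bool) → Bool :=
    lf M (fun v => mix pre O A (ovw (pos μ n) v A)) with hG
  set F : (Fin (2 ^ (c * (n + 1))) → Bool) → Fin (2 ^ n) →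
      ((Fin (2 ^ n) × Fin (KK (μ n))) × Fin (μ n) → Bool) → Bool :=
      fun r x => QF g G k true (inW (bitsOf n x.val) w (List.ofFn r)) with hF
  set s := 2 ^ (k * (g + 1)) * M.p.eval ((plP c).eval (2 ^ (n + 1))) with hsdef
  have hFd : ∀ r x, DTr s (F r x) := by
    intro r x
    have hsm : Smp (fun z : (Fin (2 ^ n) × Fin (KK (μ n))) × Fin (μ n) → Bool =>
      mix pre O A (ovw (pos μ n) z A)) := smp_mix (pos_inj μ n) pre O A (fun b => b)
    exact dtr_QF (F := G) (m := g) (s := M.p.eval ((plP c).eval (2 ^ (n + 1)))) k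
      (inW (bitsOf n x.val) w (List.ofFn r)).length (fun y hy =>
        dtr_lf hsm M _ (eval_mono _ (hy.trans (hlen r x)))) true _ le_rfl
  have hFe : ∀ (ω : (Fin (2 ^ n) × Fin (KK (μ n))) × Fin (μ n) → Bool)
      (r : Fin (2 ^ (c * (n + 1))) → Bool) (x : Fin (2 ^ n)),
      decide (Quant g (outV M (O (ovw (pos μ n) ω A))) k true
        (inW (bitsOf n x.val) w (List.ofFn r))) = F r x ω := by
    intro ω r x
    rw [Bool.eq_iff_iff, decide_eq_true_iff]
    rw [← quant_lf M (fun v => mix pre O A (ovw (pos μ n) v A)) g ω k true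
      (inW (bitsOf n x.val) w (List.ofFn r))]
    refine quant_congr k true _ fun y' hy' => ?_
    rw [h1 A (ovw (pos μ n) ω A) (hoff ω) y' (hy'.trans (hlen r x))]
  have hcard : Fintype.card (Fin (2 ^ n)) = 2 ^ n := Fintype.card_fin _
  have hD2 : 2 * Real.sqrt (2 ^ n * (w.length + n)) ≤ 2 ^ n := by
    have h3 : (2 : ℝ) ^ n * (w.length + n) ≤ (2 ^ n / 2) ^ 2 := by
      have h4 : (4 : ℝ) * (w.length + n) ≤ 2 ^ n := by exact_mod_cast hw
      have h5 : (0 : ℝ) < 2 ^ n := by positivity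
      nlinarith
    have h6 := Real.sqrt_le_sqrt h3
    rw [Real.sqrt_sq (by positivity)] at h6
    linarith
  have hsmall : 9 * ((2 : ℝ) ^ n * (s + 1)) * (1 / 2) ^ μ n ≤ 1 := by
    have h3 : s + 1 ≤ 2 * 2 ^ (k * (g + 1) + c' * n) := by
      have h4 : s ≤ 2 ^ (k * (g + 1) + c' * n) := by
        rw [hsdef, pow_add 2 (k * (g + 1)) (c' * n)]
        exact Nat.mul_le_mul_left _ hr
      have h5 : 1 ≤ 2 ^ (k * (g + 1) + c' * n) := Nat.one_le_two_pow
      omega
    have h4 : (s : ℝ) + 1 ≤ 2 * 2 ^ (k * (g + 1) + c' * n) := by exact_mod_cast h3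
    obtain ⟨d, hd⟩ := Nat.exists_eq_add_of_le hμ1
    rw [hd]
    calc 9 * ((2 : ℝ) ^ n * (s + 1)) * (1 / 2) ^ (k * (g + 1) + (c' * n + n + 5) + d)
        ≤ 16 * (2 ^ n * (2 * 2 ^ (k * (g + 1) + c' * n))) *
            (1 / 2) ^ (k * (g + 1) + (c' * n + n + 5) + d) := by
          gcongr
          norm_num
      _ = ((2 : ℝ) * (1 / 2)) ^ (k * (g + 1) + c' * n) * (2 * (1 / 2)) ^ n * (1 / 2) ^ d := by
          rw [mul_pow, mul_pow]
          ring
      _ = (1 / 2) ^ d := by norm_num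
      _ ≤ 1 := pow_le_one₀ (by norm_num) (by norm_num)
  have hb := core (ρ := Fin (2 ^ (c * (n + 1))) → Bool) (X := Fin (2 ^ n))
    (K := KK (μ n)) (m := μ n) (D := Real.sqrt (2 ^ n * (w.length + n))) (by omega)
    (by rw [hcard]; positivity)
    hFd (Real.sqrt_nonneg _) (by rw [hcard]; push_cast; exact hD2) (KK_spec _) (by
      rw [hcard]
      push_cast
      exact hsmall)
  rw [hcard] at hb
  have hcast : ((2 ^ n : ℕ) : ℝ) = 2 ^ n := by push_cast; rfl
  rw [hcast, Real.sq_sqrt (by positivity)] at hb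
  have e1 : 2 * ((2 : ℝ) ^ n * (w.length + n)) / 2 ^ n = 2 * (w.length + n) := by
    field_simp
  rw [e1] at hb
  refine le_trans (le_of_eq ?_) hb
  have hfair : (fair : ℝ) = 1 / 2 := rfl
  rw [hfair]
  refine congrArg (Ex (ber (1 / 2))) (funext fun ω => ?_)
  have h10 : (ovw (pos μ n) ω A ∈ Ev μ O M k c g n w) ↔ (2 : ℝ) ^ n / 2 +
      Real.sqrt (2 ^ n * (w.length + n)) <
        avg (fun r x => F r x ω) (fun x => decide (∃ k, ∀ j, ω ((x, k), j) = true)) := by
    unfold Ev
    rw [Set.mem_ofPred_eq]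
    have e2 : (fun (r : Fin (2 ^ (c * (n + 1))) → Bool) (x : Fin (2 ^ n)) =>
        decide (Quant g (outV M (O (ovw (pos μ n) ω A))) k true
          (inW (bitsOf n x.val) w (List.ofFn r)))) = fun r x => F r x ω :=
      funext fun r => funext fun x => hFe ω r x
    have e3 : (fun x : Fin (2 ^ n) => decide (bitsOf n x.val ∈ hardA μ (ovw (pos μ n) ω A))) =
        fun x => decide (∃ k, ∀ j, ω ((x, k), j) = true) :=
      funext fun x => decide_eq_decide.2 (hard_ovw ω A x)
    rw [e2, e3]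
  exact if_congr h10 rfl rfl

end Pool.Agent.J6H31.AV
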