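import Pool.Agent.J6H31.AV.Corr
import Pool.Agent.J6H49.EE.Main

/-!
# Optimal average-case hardness in nearly collapsed worlds
-/

set_option autoImplicit false

namespace Pool.Agent.J6H31.AV

open Pool.Agent.NPC Pool.Agent.H620R2.Gauge Pool.Agent.H622R2 Pool.Agent.H591R3.PHG
open Pool.Agent.J6H7.RO (MO randomOracle outV outV_eq prob)
open MeasureTheory Filter
open Pool.Agent.TH678.GC (join)
open Pool.Agent.TH678.RS (bt)
open Pool.Agent.Y626.WX (Cp cod agree_emb loc_emb exists_cp)
open Pool.Agent.J6H49.PHC (far join_agree)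
open Pool.Agent.J6H49.BI (LateP fair)
open Pool.Agent.J6H49.EE (padE LinExp InExpTime slow slow_mono slow_tendsto time_espace)

/-- some advice is too good for the length `n` -/
def Gv (μ : ℕ → ℕ) (O : Oracle → Oracle) (M : Alg) (k c C n : ℕ) : Set Oracle :=
  {A | ∃ (w : List Bool) (g : ℕ), 4 * (w.length + n) ≤ 2 ^ n ∧ g ≤ 2 ^ (n + 1) ∧
    k * (g + 1) + C * n ≤ μ n ∧ A ∈ Ev μ O M k c g n w}

theorem exp_term (n a : ℕ) : (2 : ℝ) ^ (n + 2) * (2 ^ a * Real.exp (1 - 2 * (a + n))) ≤
    12 * (1 / 2) ^ n * (1 / 2) ^ a := by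
  have e1 : Real.exp (1 - 2 * ((a : ℝ) + n)) =
      Real.exp 1 * ((Real.exp (-2)) ^ a * (Real.exp (-2)) ^ n) := by
    rw [← Real.exp_nat_mul, ← Real.exp_nat_mul, ← Real.exp_add, ← Real.exp_add]
    congr 1
    ring
  have e2 : Real.exp 1 ≤ 3 := exp_le_three le_rfl
  have e3 : Real.exp (-2) ≤ 1 / 4 := by
    have h1 : (4 : ℝ) ≤ Real.exp 2 := by
      have h2 : (2 : ℝ) ≤ Real.exp 1 := by
        have := Real.add_one_le_exp (1 : ℝ)
        linarith
      have h3 : Real.exp 2 = Real.exp 1 ^ 2 := by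
        rw [← Real.exp_nat_mul]
        norm_num
      rw [h3]
      nlinarith
    rw [Real.exp_neg, one_div]
    exact inv_anti₀ (by norm_num) h1
  have h0 : (0 : ℝ) ≤ Real.exp (-2) := (Real.exp_pos _).le
  rw [e1]
  calc (2 : ℝ) ^ (n + 2) * (2 ^ a * (Real.exp 1 * (Real.exp (-2) ^ a * Real.exp (-2) ^ n)))
      ≤ 2 ^ (n + 2) * (2 ^ a * (3 * ((1 / 4) ^ a * (1 / 4) ^ n))) := by
        gcongr
    _ = 12 * ((2 : ℝ) * (1 / 4)) ^ n * ((2 : ℝ) * (1 / 4)) ^ a := by
        rw [mul_pow, mul_pow, pow_add]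
        ring
    _ = 12 * (1 / 2) ^ n * (1 / 2) ^ a := by norm_num

theorem gv_bound {μ : ℕ → ℕ} (hμ : ∀ n, μ n ≤ 2 ^ (n + 1)) {pre : List Bool}
    {O : Oracle → Oracle} (hO : LateP pre O) (M : Alg) (k c : ℕ) : ∃ C : ℕ, ∀ n ≥ C,
      prob (fun _ => fair) (Gv μ O M k c C n) ≤ 24 * (1 / 2) ^ n := by
  obtain ⟨C, hC⟩ := corr hμ hO M k c
  refine ⟨C, fun n hn => ?_⟩
  have h1 := hC n hn
  set a₀ := 2 ^ n / 4 with ha
  have hsub : Gv μ O M k c C n ⊆ ⋃ a ∈ Finset.range (a₀ + 1), ⋃ j ∈ Finset.range (2 ^ a),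
      ⋃ g ∈ Finset.range (2 ^ (n + 2)), {A | 4 * (a + n) ≤ 2 ^ n ∧ k * (g + 1) + C * n ≤ μ n ∧
        A ∈ Ev μ O M k c g n (bitsOf a j)} := by
    rintro A ⟨w, g, hw, hg, hk, hA⟩
    simp only [Set.mem_iUnion, Finset.mem_range]
    obtain ⟨j, hj, hjw⟩ := exists_bitsOf w
    refine ⟨w.length, by omega, j, hj, g, ?_, hw, hk, ?_⟩
    · have : 2 ^ (n + 2) = 2 * 2 ^ (n + 1) := by rw [pow_succ 2 (n + 1), mul_comm]
      have h2 : 1 ≤ 2 ^ (n + 1) := Nat.one_le_two_pow
      omega
    · rw [hjw]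
      exact hA
  have h3 : ∀ a ∈ Finset.range (a₀ + 1), ∀ j ∈ Finset.range (2 ^ a),
      ∀ g ∈ Finset.range (2 ^ (n + 2)), prob (fun _ => fair)
      {A | 4 * (a + n) ≤ 2 ^ n ∧ k * (g + 1) + C * n ≤ μ n ∧
        A ∈ Ev μ O M k c g n (bitsOf a j)} ≤ Real.exp (1 - 2 * (a + n)) := by
    intro a _ j _ g _
    by_cases h : 4 * (a + n) ≤ 2 ^ n ∧ k * (g + 1) + C * n ≤ μ n
    · have h4 := h1 (bitsOf a j) g (by rw [length_bitsOf]; exact h.1) h.2
      rw [length_bitsOf] at h4
      refine le_trans ?_ h4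
      exact measureReal_mono (fun A hA => hA.2.2) (measure_ne_top _ _)
    · have : {A : Oracle | 4 * (a + n) ≤ 2 ^ n ∧ k * (g + 1) + C * n ≤ μ n ∧
          A ∈ Ev μ O M k c g n (bitsOf a j)} = ∅ := by
        ext A
        simp only [Set.mem_ofPred_eq, Set.mem_empty_iff_false, iff_false]
        exact fun h' => h ⟨h'.1, h'.2.1⟩
      rw [this]
      unfold prob
      rw [measureReal_empty]
      positivity
  have h4 : prob (fun _ => fair) (Gv μ O M k c C n) ≤ ∑ a ∈ Finset.range (a₀ + 1),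
      ∑ j ∈ Finset.range (2 ^ a), ∑ g ∈ Finset.range (2 ^ (n + 2)),
        Real.exp (1 - 2 * (a + n)) := by
    refine (measureReal_mono hsub (measure_ne_top _ _)).trans
      ((measureReal_biUnion_finset_le _ _).trans (Finset.sum_le_sum fun a ha => ?_))
    refine (measureReal_biUnion_finset_le _ _).trans (Finset.sum_le_sum fun j hj => ?_)
    refine (measureReal_biUnion_finset_le _ _).trans (Finset.sum_le_sum fun g hg => ?_)
    exact h3 a ha j hj g hg
  refine h4.trans ?_
  have h5 : ∀ a ∈ Finset.range (a₀ + 1), ∑ j ∈ Finset.range (2 ^ a),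
      ∑ g ∈ Finset.range (2 ^ (n + 2)), Real.exp (1 - 2 * (a + n)) ≤
        12 * (1 / 2) ^ n * (1 / 2) ^ a := by
    intro a _
    rw [Finset.sum_const, Finset.sum_const, Finset.card_range, Finset.card_range, nsmul_eq_mul,
      nsmul_eq_mul]
    push_cast
    have := exp_term n a
    refine le_trans (le_of_eq ?_) this
    ring
  refine (Finset.sum_le_sum h5).trans ?_
  rw [← Finset.mul_sum]
  have h7 : ∑ a ∈ Finset.range (a₀ + 1), ((1 : ℝ) / 2) ^ a ≤ 2 := by
    rw [geom_sum_eq (by norm_num)]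
    have : (0 : ℝ) < (1 / 2) ^ (a₀ + 1) := by positivity
    rw [div_le_iff_of_neg (by norm_num)]
    linarith
  have h9 : 12 * ((1 : ℝ) / 2) ^ n * ∑ a ∈ Finset.range (a₀ + 1), ((1 : ℝ) / 2) ^ a ≤
      12 * (1 / 2) ^ n * 2 := mul_le_mul_of_nonneg_left h7 (by positivity)
  linarith

theorem ae_gv {μ : ℕ → ℕ} (hμ : ∀ n, μ n ≤ 2 ^ (n + 1)) {pre : List Bool}
    {O : Oracle → Oracle} (hO : LateP pre O) (M : Alg) (k c : ℕ) :
    ∀ᵐ A ∂(randomOracle fun _ => fair), ∃ C : ℕ, ∀ n ≥ C, A ∉ Gv μ O M k c C n := by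
  obtain ⟨n₀, hn₀⟩ := gv_bound hμ hO M k c
  have h1 : ∀ᵐ A ∂(randomOracle fun _ => fair), ∀ᶠ i : ℕ in atTop,
      A ∉ Gv μ O M k c n₀ (i + n₀) := by
    refine ae_eventually_notMem ?_
    have hsum : Summable (fun i : ℕ => 24 * ((1 : ℝ) / 2) ^ (i + n₀)) := by
      have h2 : Summable (fun N : ℕ => ((1 : ℝ) / 2) ^ N) :=
        summable_geometric_of_lt_one (by norm_num) (by norm_num)
      exact ((summable_nat_add_iff n₀).2 h2).mul_left 24
    have h4 : ∀ i, (randomOracle fun _ => fair) (Gv μ O M k c n₀ (i + n₀)) ≤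
        ENNReal.ofReal (24 * ((1 : ℝ) / 2) ^ (i + n₀)) := by
      intro i
      rw [← ofReal_measureReal (measure_ne_top _ _)]
      exact ENNReal.ofReal_le_ofReal (hn₀ (i + n₀) (by omega))
    exact ne_top_of_le_ne_top hsum.tsum_ofReal_ne_top (ENNReal.tsum_le_tsum h4)
  filter_upwards [h1] with A hA
  obtain ⟨i₀, hi₀⟩ := eventually_atTop.1 hA
  refine ⟨i₀ + n₀, fun ν hν hmem => ?_⟩
  have h2 := hi₀ (ν - n₀) (by omega)
  rw [Nat.sub_add_cancel (by omega)] at h2
  refine h2 ?_
  obtain ⟨w, g, hw, hg, hk, hE⟩ := hmem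
  refine ⟨w, g, hw, hg, le_trans ?_ hk, hE⟩
  exact Nat.add_le_add_left (Nat.mul_le_mul_right _ (by omega)) _

open Classical in
theorem ncard_agr (n : ℕ) (P Q : List Bool → Prop) :
    Set.ncard {x : List Bool | x.length = n ∧ (P x ↔ Q x)} =
      agr (fun x : Fin (2 ^ n) => decide (P (bitsOf n x.val)))
        (fun x => decide (Q (bitsOf n x.val))) := by
  have h1 : {x : List Bool | x.length = n ∧ (P x ↔ Q x)} =
      (fun x : Fin (2 ^ n) => bitsOf n x.val) '' ((Finset.univ.filter fun x : Fin (2 ^ n) =>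
        decide (P (bitsOf n x.val)) = decide (Q (bitsOf n x.val)) : Finset (Fin (2 ^ n))) :
          Set (Fin (2 ^ n))) := by
    ext x
    simp only [Set.mem_ofPred_eq, Set.mem_image, Finset.coe_filter, Finset.mem_univ, true_and,
      decide_eq_decide]
    constructor
    · rintro ⟨rfl, h⟩
      obtain ⟨j, hj, hjx⟩ := exists_bitsOf x
      refine ⟨⟨j, hj⟩, ?_, hjx⟩
      dsimp only
      rw [hjx]
      exact h
    · rintro ⟨j, h, rfl⟩
      exact ⟨length_bitsOf _ _, h⟩
  rw [h1, Set.ncard_image_of_injective _ (fun x y h =>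
    Fin.ext (bitsOf_inj x.isLt y.isLt h)), Set.ncard_coe_finset]
  rfl

/-- The average success on the strings of length `n` of the machine with verifier `V`, `k`
alternating quantifiers over strings of length at most `g`, the advice `w` and `R` random bits: the
average, over the strings `r` of `R` bits, of the number of the strings `x` of length `n` such that
the machine accepts `x` (with `w` and `r`) if and only if `x ∈ L`. -/
noncomputable def success (V : List Bool → List Bool) (k g R n : ℕ) (w : List Bool)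
    (L : Set (List Bool)) : ℝ :=
  (∑ r : Fin R → Bool, ((Set.ncard {x : List Bool | x.length = n ∧
    (Quant g V k true (inW x w (List.ofFn r)) ↔ x ∈ L)} : ℕ) : ℝ)) / 2 ^ R

open Classical in
theorem success_avg (V : List Bool → List Bool) (k g R n : ℕ) (w : List Bool)
    (L : Set (List Bool)) : success V k g R n w L =
      avg (fun (r : Fin R → Bool) (x : Fin (2 ^ n)) =>
        decide (Quant g V k true (inW (bitsOf n x.val) w (List.ofFn r))))
        (fun x => decide (bitsOf n x.val ∈ L)) := by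
  unfold success avg
  rw [Fintype.card_fun, Fintype.card_bool, Fintype.card_fin]
  push_cast
  congr 1
  refine Finset.sum_congr rfl fun r _ => ?_
  rw [ncard_agr n (fun x => Quant g V k true (inW x w (List.ofFn r))) (fun x => x ∈ L)]

theorem success_le (V : List Bool → List Bool) (k g R n : ℕ) (w : List Bool)
    (L : Set (List Bool)) : success V k g R n w L ≤ 2 ^ n := by
  classical
  rw [success_avg]
  unfold avg
  rw [div_le_iff₀ (by exact_mod_cast Fintype.card_pos)]
  have h1 : ∀ r : Fin R → Bool, (agr (fun x : Fin (2 ^ n) =>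
      decide (Quant g V k true (inW (bitsOf n x.val) w (List.ofFn r))))
        (fun x => decide (bitsOf n x.val ∈ L)) : ℝ) ≤ 2 ^ n := by
    intro r
    unfold agr
    have := (Finset.card_filter_le (Finset.univ : Finset (Fin (2 ^ n))) (fun x =>
      decide (Quant g V k true (inW (bitsOf n x.val) w (List.ofFn r))) =
        decide (bitsOf n x.val ∈ L))).trans (le_of_eq Finset.card_univ)
    rw [Fintype.card_fin] at this
    exact_mod_cast this
  refine (Finset.sum_le_sum fun r _ => h1 r).trans (le_of_eq ?_)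
  rw [Finset.sum_const, nsmul_eq_mul, Finset.card_univ, mul_comm]

/-- the average success of all the machines is hardly more than one half -/
theorem ae_main {μ : ℕ → ℕ} (hμ : ∀ n, μ n ≤ 2 ^ (n + 1)) {pre : List Bool}
    {O : Oracle → Oracle} (hO : LateP pre O) :
    ∀ᵐ A ∂(randomOracle fun _ => fair), ∀ V : List Bool → List Bool, IsFP (O A) V →
      ∀ k c : ℕ, ∃ C : ℕ, ∀ n ≥ C, ∀ (w : List Bool) (g : ℕ), k * (g + 1) + C * n ≤ μ n →
        success V k g (2 ^ (c * (n + 1))) n w (hardA μ A) ≤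
          2 ^ n / 2 + Real.sqrt (2 ^ n * (w.length + n)) := by
  have h1 : ∀ᵐ A ∂(randomOracle fun _ => fair), ∀ (M : Alg) (k c : ℕ),
      ∃ C : ℕ, ∀ n ≥ C, A ∉ Gv μ O M k c C n := by
    rw [ae_all_iff]
    intro M
    rw [ae_all_iff]
    intro k
    rw [ae_all_iff]
    intro c
    exact ae_gv hμ hO M k c
  filter_upwards [h1] with A hA V hV k c
  obtain ⟨M, hM⟩ := hV
  obtain ⟨C, hC⟩ := hA M k c
  refine ⟨C, fun n hn w g hg => ?_⟩
  have hMV : outV M (O A) = V := by
    funext y
    unfold outV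
    rw [hM]
    rfl
  classical
  by_cases hw : 4 * (w.length + n) ≤ 2 ^ n
  · -- the case `k = 0` does not depend on `g`
    obtain ⟨g', hg1, hg2, hg3⟩ : ∃ g' : ℕ, g' ≤ 2 ^ (n + 1) ∧ k * (g' + 1) + C * n ≤ μ n ∧
        ∀ y, (Quant g V k true y ↔ Quant g' V k true y) := by
      rcases Nat.eq_zero_or_pos k with hk | hk
      · subst hk
        exact ⟨0, by positivity, by omega, fun y => Iff.rfl⟩
      · refine ⟨g, ?_, hg, fun y => Iff.rfl⟩
        have : 1 * (g + 1) ≤ k * (g + 1) := Nat.mul_le_mul_right _ hk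
        have := hμ n
        omega
    by_contra hcon
    push Not at hcon
    refine hC n hn ⟨w, g', hw, hg1, hg2, ?_⟩
    unfold Ev
    rw [Set.mem_ofPred_eq, hMV]
    rw [success_avg] at hcon
    simp only [hg3] at hcon
    exact hcon
  · refine (success_le _ _ _ _ _ _ _).trans ?_
    have h3 : (2 : ℝ) ^ n / 2 ≤ Real.sqrt (2 ^ n * (w.length + n)) := by
      refine Real.le_sqrt_of_sq_le ?_
      push Not at hw
      have h4 : (2 : ℝ) ^ n < 4 * (w.length + n) := by exact_mod_cast hw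
      have h5 : (0 : ℝ) < 2 ^ n := by positivity
      nlinarith
    linarith

variable {g : ℕ → SAlg × Polynomial ℕ} {S : ℕ → Polynomial ℕ} {Φ : Oracle → Oracle}

/-- the oracle -/
noncomputable def oracle (Φ : Oracle → Oracle) (T E₀ A : Oracle) : Oracle :=
  join (join (join A E₀) T) (cod Φ (join (join A E₀) T))

theorem late_coded {α : ℕ → ℕ} (hα : Monotone α) (hα' : Tendsto α atTop atTop)
    (hc : Cp g S (bt α) Φ) (T E₀ : Oracle) : LateP [false, false, false] (oracle Φ T E₀) := by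
  refine ⟨by simp, fun A x => rfl, fun q b => ?_, fun c => ?_⟩
  · refine Pool.Agent.H628R3.RO.measurableSet_of_loc
      (K := {u : List Bool | u.length ≤ q.length}) (List.finite_length_le Bool q.length) ?_
    intro A A' hA
    have h1 : oracle Φ T E₀ A q = oracle Φ T E₀ A' q := by
      refine loc_emb hc (ℓ := q.length) (fun u hu => ?_) q le_rfl
      refine join_agree (L := q.length + 1) (fun v hv => ?_) u (by omega)
      refine join_agree (L := q.length + 1) (fun v hv => hA v (by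
        show v.length ≤ q.length
        omega)) v hv
    show oracle Φ T E₀ A q = b ↔ oracle Φ T E₀ A' q = b
    rw [h1]
  · filter_upwards [far hα hα' c] with N hN A A' hA q hq hpre
    have h1 := agree_emb hc (L := N) (T := N ^ c) hN (A := join (join A E₀) T)
      (A' := join (join A' E₀) T) (join_agree (join_agree hA)) q hq
    show join (join (join A E₀) T) (cod Φ (join (join A E₀) T)) q =
      join (join (join A' E₀) T) (cod Φ (join (join A' E₀) T)) q
    rw [h1]
    match q with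
    | [] => rfl
    | false :: [] => rfl
    | false :: false :: [] => rfl
    | false :: false :: false :: x => exact absurd rfl (hpre x)
    | false :: false :: true :: x => rfl
    | false :: true :: x => rfl
    | true :: x => rfl

/-- **The main theorem.** -/
theorem main (β : ℕ → ℕ) (hβ : Monotone β) (hβ' : Tendsto β atTop atTop)
    (μ : ℕ → ℕ) (hμ : ∀ n, μ n ≤ 2 ^ (n + 1)) :
    ∃ (T : Oracle) (E : Oracle → Oracle),
      (∀ B : Oracle, ∀ L, LinExp (IsPSPACE (join B (E B))) L → InExpTime β (join B (E B)) L) ∧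
      ∀ E₀ : Oracle, ∀ᵐ A ∂(randomOracle fun _ => fair), ∀ O : Oracle,
        O = join (join (join A E₀) T) (E (join (join A E₀) T)) →
        ∃ L : Set (List Bool), LinExp (IsSig O 1) L ∧
          (∃ V : List Bool → List Bool, IsFP O V ∧ ∀ x, x ∈ L ↔
            ∃ y : List Bool, y.length = μ x.length ∧ V (pairBits y (padE 1 x)) = [true]) ∧
          ∀ V : List Bool → List Bool, IsFP O V → ∀ k c : ℕ, ∃ C : ℕ, ∀ n ≥ C,
            ∀ (w : List Bool) (g : ℕ), k * (g + 1) + C * n ≤ μ n →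
              success V k g (2 ^ (c * (n + 1))) n w L ≤
                2 ^ n / 2 + Real.sqrt (2 ^ n * (w.length + n)) := by
  obtain ⟨g, hg⟩ := CC.exists_enum
  obtain ⟨S, Φ, hc⟩ := exists_cp g (bt (slow β))
  refine ⟨tab μ, cod Φ, fun B L hL => time_espace hg hβ hc B hL, fun E₀ => ?_⟩
  filter_upwards [ae_main hμ (late_coded (slow_mono hβ) (slow_tendsto hβ') hc (tab μ) E₀)]
    with A hA O hO
  subst hO
  refine ⟨hardA μ A, ?_, ?_, hA⟩
  · exact hardA_sig hμ (pre := [false, false, false]) (pre' := [false, true]) (fun q => rfl)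
      (fun q => rfl)
  · exact hardA_guess (pre := [false, false, false]) (pre' := [false, true]) (fun q => rfl)
      (fun q => rfl)

end Pool.Agent.J6H31.AV
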