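import Pool.Agent.J6H31.AV.Core
import Pool.Agent.H591R3.PHG.Final

/-!
# The exponential moment of the success of shallow decision trees

`Z` consists of independent rare ones; the value of an input is true if its row contains a one. The
answers for all the inputs are given by one decision tree which asks for few bits of `Z` (rarely
it finds a one).
-/

set_option autoImplicit false

namespace Pool.Agent.J6H31.AV

open Finset H568R2 Pool.Agent.H676 Pool.Agent.H620R2.Gauge Pool.Agent.H591R3.PHG
open Pool.Agent.H591R3.PHG.FinalAux (DTv)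

/-- a row without a one and with `j` unknown positions -/
noncomputable def cc (p t : ℝ) (j : ℕ) : ℝ :=
  Real.cosh t + |2 * (1 - p) ^ j - 1| * Real.sinh t

theorem one_le_cc {p t : ℝ} (ht : 0 ≤ t) (j : ℕ) : 1 ≤ cc p t j := by
  unfold cc
  have h1 := Real.one_le_cosh t
  have h2 : 0 ≤ Real.sinh t := Real.sinh_nonneg_iff.2 ht
  have h3 : 0 ≤ |2 * (1 - p) ^ j - 1| * Real.sinh t := mul_nonneg (abs_nonneg _) h2
  linarith

theorem exp_le_three {t : ℝ} (ht : t ≤ 1) : Real.exp t ≤ 3 := by
  refine (Real.exp_le_exp.2 ht).trans ?_
  have := Real.exp_one_lt_d9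
  linarith

theorem sinh_le {t : ℝ} (ht : t ≤ 1) : Real.sinh t ≤ 3 / 2 := by
  rw [Real.sinh_eq]
  have h1 := exp_le_three ht
  have h2 := Real.exp_pos (-t)
  linarith

theorem cc_step {p t : ℝ} (hp0 : 0 ≤ p) (hp1 : p ≤ 1) (ht0 : 0 ≤ t) (ht1 : t ≤ 1) (j : ℕ) :
    p * Real.exp t + (1 - p) * cc p t j ≤ (1 + 9 * p) * cc p t (j + 1) := by
  have h1 := one_le_cc (p := p) ht0 (j + 1)
  have h0 := one_le_cc (p := p) ht0 j
  have h2 : 0 ≤ Real.sinh t := Real.sinh_nonneg_iff.2 ht0
  have h3 : cc p t j ≤ cc p t (j + 1) + 2 * p * Real.sinh t := by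
    unfold cc
    have h4 : |2 * (1 - p) ^ j - 1| ≤ |2 * (1 - p) ^ (j + 1) - 1| + 2 * p := by
      have h5 : 2 * (1 - p) ^ j - 1 = (2 * (1 - p) ^ (j + 1) - 1) + 2 * p * (1 - p) ^ j := by
        rw [pow_succ]
        ring
      have h6 : 0 ≤ (1 - p) ^ j := pow_nonneg (by linarith) _
      have h7 : (1 - p) ^ j ≤ 1 := pow_le_one₀ (by linarith) (by linarith)
      rw [h5]
      refine (abs_add_le _ _).trans ?_
      have h8 : |2 * p * (1 - p) ^ j| ≤ 2 * p := by
        rw [abs_of_nonneg (by positivity)]
        nlinarith
      linarith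
    nlinarith
  have h4 := sinh_le ht1
  have h5 := exp_le_three ht1
  have h6 : (1 - p) * cc p t j ≤ cc p t j := by nlinarith
  have h7 : p * Real.exp t ≤ 3 * p := by nlinarith
  have h8 : 2 * p * Real.sinh t ≤ 3 * p := by nlinarith
  nlinarith

/-- the value of a part of a row -/
theorem Ex_orS {I : Type} [Fintype I] [DecidableEq I] (p : ℝ) (S : Finset I) (ψ : Bool → ℝ) :
    Ex (ber p) (fun τ : I → Bool => ψ (decide (∃ k ∈ S, τ k = true))) =
      (1 - p) ^ S.card * ψ false + (1 - (1 - p) ^ S.card) * ψ true := by
  have h := Ex_indep (w := ber p) (ber_sum_m p) (fun b : Bool => b = false) S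
    (fun _ : I → Bool => (1 : ℝ)) (fun _ _ _ _ => rfl)
  rw [Ex_const (ber_sum_m p), mul_one] at h
  have h2 : ∑ a ∈ univ.filter (fun b : Bool => b = false), ber p a = 1 - p := by
    rw [Finset.sum_filter, Fintype.sum_bool]
    simp [ber]
  rw [h2] at h
  have h3 : (fun τ : I → Bool => ψ (decide (∃ k ∈ S, τ k = true))) = fun τ =>
      ψ true + (ψ false - ψ true) *
        ((1 : ℝ) * if ∀ i ∈ S, τ i = false then 1 else 0) := by
    funext τ
    by_cases hτ : ∃ k ∈ S, τ k = true
    · have : ¬ ∀ i ∈ S, τ i = false := by
        intro h4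
        obtain ⟨k, hk1, hk⟩ := hτ
        rw [h4 k hk1] at hk
        exact Bool.noConfusion hk
      rw [if_neg this, decide_eq_true hτ]
      ring
    · have h5 : ∀ i ∈ S, τ i = false := by
        intro i hi'
        cases hi : τ i
        · rfl
        · exact absurd ⟨i, hi', hi⟩ hτ
      rw [if_pos h5, decide_eq_false hτ]
      ring
  rw [h3, Ex_add, Ex_smul, Ex_const (ber_sum_m p)]
  have h' : Ex (ber p) (fun τ : I → Bool =>
      (1 : ℝ) * if ∀ i ∈ S, τ i = false then 1 else 0) = (1 - p) ^ S.card := by
    rw [← h]
  rw [h']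
  ring

variable {X : Type} [Fintype X] [DecidableEq X] {K : ℕ}

open Classical in
/-- the bound for the row of `x`, for the known values `σ` -/
noncomputable def cs (p t : ℝ) (σ : X × Fin K → Option Bool) (x : X) : ℝ :=
  if ∃ k, σ (x, k) = some true then Real.exp t
  else cc p t (univ.filter fun k => σ (x, k) = none).card

omit [Fintype X] [DecidableEq X] in
theorem one_le_cs {p t : ℝ} (ht : 0 ≤ t) (σ : X × Fin K → Option Bool) (x : X) :
    1 ≤ cs p t σ x := by
  unfold cs
  split_ifs
  · exact Real.one_le_exp ht
  · exact one_le_cc ht _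

omit [Fintype X] [DecidableEq X] in
/-- one row -/
theorem row_bound {p t : ℝ} (hp0 : 0 ≤ p) (hp1 : p ≤ 1) (ht0 : 0 ≤ t)
    (σ : X × Fin K → Option Bool) (x : X) (b : Bool) :
    Ex (ber p) (fun τ : Fin K → Bool =>
      Real.exp (if b = decide (∃ k, (σ (x, k)).getD (τ k) = true) then t else -t)) ≤
        cs p t σ x := by
  classical
  unfold cs
  split_ifs with h1
  · rw [← Ex_const (I := Fin K) (ber_sum_m p) (Real.exp t)]
    refine Ex_mono (ber_nonneg_m hp0 hp1) fun τ => Real.exp_le_exp.2 ?_
    split_ifs <;> linarith
  · have h2 : ∀ τ : Fin K → Bool, decide (∃ k, (σ (x, k)).getD (τ k) = true) =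
        decide (∃ k ∈ univ.filter (fun k => σ (x, k) = none), τ k = true) := by
      intro τ
      refine decide_eq_decide.2 ⟨?_, ?_⟩
      · rintro ⟨k, hk⟩
        rcases hs : σ (x, k) with _ | v
        · rw [hs] at hk
          exact ⟨k, Finset.mem_filter.2 ⟨Finset.mem_univ _, hs⟩, hk⟩
        · rw [hs] at hk
          have hv : v = true := hk
          exact absurd ⟨k, by rw [hs, hv]⟩ h1
      · rintro ⟨k, hk, hk2⟩
        refine ⟨k, ?_⟩
        rw [(Finset.mem_filter.1 hk).2]
        exact hk2
    simp only [h2]
    have h8 := Ex_orS p (univ.filter fun k => σ (x, k) = none)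
      (fun v => Real.exp (if b = v then t else -t))
    refine le_trans (le_of_eq ?_) (le_trans (le_of_eq h8) ?_)
    · refine congrArg (Ex (ber p)) (funext fun τ => congrArg Real.exp ?_)
      exact if_congr (Iff.of_eq (congrArg (fun v => b = v) (decide_eq_decide.2 Iff.rfl))) rfl rfl
    set q := (1 - p) ^ (univ.filter fun k => σ (x, k) = none).card with hq
    unfold cc
    rw [← hq]
    have h3 := le_abs_self (2 * q - 1)
    have h4 := neg_abs_le (2 * q - 1)
    have h5 : 0 ≤ Real.sinh t := Real.sinh_nonneg_iff.2 ht0
    have h6 : Real.exp t = Real.cosh t + Real.sinh t := by rw [Real.cosh_add_sinh]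
    have h7 : Real.exp (-t) = Real.cosh t - Real.sinh t := by rw [Real.cosh_sub_sinh]
    cases b
    · rw [if_pos rfl, if_neg (by simp), h6, h7]
      nlinarith
    · rw [if_neg (by simp), if_pos rfl, h6, h7]
      nlinarith

theorem val_update_some {I : Type} [DecidableEq I] {σ : I → Option Bool} {i : I} {v : Bool}
    (h : σ i = some v) (Z : I → Bool) (b : Bool) : val σ (Function.update Z i b) = val σ Z := by
  funext j
  unfold Pool.Agent.H591R3.PHG.val
  by_cases hj : j = i
  · subst hj
    rw [h]
    rfl
  · rw [Function.update_of_ne hj]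

theorem val_update_none {I : Type} [DecidableEq I] {σ : I → Option Bool} {i : I}
    (h : σ i = none) (Z : I → Bool) (b : Bool) :
    val σ (Function.update Z i b) = val (Function.update σ i (some b)) Z := by
  funext j
  unfold Pool.Agent.H591R3.PHG.val
  by_cases hj : j = i
  · subst hj
    rw [h, Function.update_self, Function.update_self]
    rfl
  · rw [Function.update_of_ne hj, Function.update_of_ne hj]

theorem cs_step {p t : ℝ} (hp0 : 0 ≤ p) (hp1 : p ≤ 1) (ht0 : 0 ≤ t) (ht1 : t ≤ 1)
    (σ : X × Fin K → Option Bool) (i : X × Fin K) (hi : σ i = none) :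
    ∑ b : Bool, ber p b * cs p t (Function.update σ i (some b)) i.1 ≤
      (1 + 9 * p) * cs p t σ i.1 := by
  classical
  obtain ⟨x, k⟩ := i
  rw [Fintype.sum_bool]
  show p * _ + (1 - p) * _ ≤ _
  have e1 : cs p t (Function.update σ (x, k) (some true)) x = Real.exp t := by
    unfold cs
    rw [if_pos ⟨k, Function.update_self _ _ _⟩]
  have h0 := one_le_cs (p := p) ht0 σ x
  by_cases h1 : ∃ k', σ (x, k') = some true
  · obtain ⟨k', hk'⟩ := h1
    have hne : (x, k') ≠ (x, k) := by
      intro h
      rw [h, hi] at hk'
      exact absurd hk' (by simp)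
    have e2 : cs p t (Function.update σ (x, k) (some false)) x = Real.exp t := by
      unfold cs
      rw [if_pos ⟨k', by rw [Function.update_of_ne hne]; exact hk'⟩]
    have e3 : cs p t σ x = Real.exp t := by
      unfold cs
      rw [if_pos ⟨k', hk'⟩]
    rw [e1, e2, e3]
    have := Real.exp_pos t
    nlinarith
  · have h2 : ¬ ∃ k', Function.update σ (x, k) (some false) (x, k') = some true := by
      rintro ⟨k', hk'⟩
      by_cases hkk : (x, k') = (x, k)
      · rw [hkk, Function.update_self] at hk'
        simp at hk'
      · rw [Function.update_of_ne hkk] at hk'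
        exact h1 ⟨k', hk'⟩
    have e4 : (univ.filter fun k' => Function.update σ (x, k) (some false) (x, k') = none) =
        (univ.filter fun k' => σ (x, k') = none).erase k := by
      ext k'
      simp only [Finset.mem_filter, Finset.mem_univ, true_and, Finset.mem_erase]
      by_cases hkk : k' = k
      · subst hkk
        rw [Function.update_self]
        simp
      · rw [Function.update_of_ne (by simpa using hkk)]
        simp [hkk]
    have e5 : (univ.filter fun k' => σ (x, k') = none).card =
        ((univ.filter fun k' => σ (x, k') = none).erase k).card + 1 := by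
      have hk : k ∈ univ.filter fun k' => σ (x, k') = none :=
        Finset.mem_filter.2 ⟨Finset.mem_univ _, hi⟩
      exact (Finset.card_erase_add_one hk).symm
    rw [e1]
    unfold cs
    rw [if_neg h1, if_neg h2, e4, e5]
    exact cc_step hp0 hp1 ht0 ht1 _

/-- **The exponential moment.** -/
theorem moment {p t : ℝ} (hp0 : 0 ≤ p) (hp1 : p ≤ 1) (ht0 : 0 ≤ t) (ht1 : t ≤ 1)
    (F : (X × Fin K → Bool) → X → Bool) : ∀ (d : ℕ) (σ : X × Fin K → Option Bool),
      DTv d (fun Z => F (val σ Z)) →
      Ex (ber p) (fun Z : X × Fin K → Bool => ∏ x, Real.exp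
        (if F (val σ Z) x = decide (∃ k, val σ Z (x, k) = true) then t else -t)) ≤
        (1 + 9 * p) ^ d * ∏ x, cs p t σ x := by
  classical
  have hbase : ∀ (σ : X × Fin K → Option Bool), (∃ f, ∀ Z, F (val σ Z) = f) →
      Ex (ber p) (fun Z : X × Fin K → Bool => ∏ x, Real.exp
        (if F (val σ Z) x = decide (∃ k, val σ Z (x, k) = true) then t else -t)) ≤
        ∏ x, cs p t σ x := by
    rintro σ ⟨f, hf⟩
    simp only [hf]
    have h1 := Ex_blocks (ber p) (fun (x : X) (τ : Fin K → Bool) =>
      Real.exp (if f x = decide (∃ k, (σ (x, k)).getD (τ k) = true) then t else -t))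
    refine (le_of_eq h1).trans ?_
    exact Finset.prod_le_prod (fun x _ => Ex_nonneg (ber_nonneg_m hp0 hp1) fun _ =>
      (Real.exp_pos _).le) fun x _ => row_bound hp0 hp1 ht0 σ x (f x)
  have hpos : ∀ σ : X × Fin K → Option Bool, 0 ≤ ∏ x, cs p t σ x := fun σ =>
    Finset.prod_nonneg fun x _ => zero_le_one.trans (one_le_cs ht0 σ x)
  intro d
  induction d with
  | zero =>
    intro σ h
    rw [pow_zero, one_mul]
    exact hbase σ h
  | succ d ih =>
    intro σ h
    rcases h with h | ⟨i, h⟩
    · refine (hbase σ h).trans ?_
      exact le_mul_of_one_le_left (hpos σ) (one_le_pow₀ (by linarith))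
    · rcases hs : σ i with _ | v
      · -- a new question
        rw [Ex_resample (ber_sum_m p) _ i]
        simp only [val_update_none hs]
        have h2 : ∀ b : Bool, Ex (ber p) (fun Z : X × Fin K → Bool => ∏ x, Real.exp
            (if F (val (Function.update σ i (some b)) Z) x =
              decide (∃ k, val (Function.update σ i (some b)) Z (x, k) = true) then t else -t)) ≤
            (1 + 9 * p) ^ d * ∏ x, cs p t (Function.update σ i (some b)) x := by
          intro b
          refine ih (Function.update σ i (some b)) ?_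
          have h3 := h b
          simp only [val_update_none hs] at h3
          exact h3
        have h4 : Ex (ber p) (fun Z : X × Fin K → Bool => ∑ b : Bool, ber p b * ∏ x, Real.exp
            (if F (val (Function.update σ i (some b)) Z) x =
              decide (∃ k, val (Function.update σ i (some b)) Z (x, k) = true) then t else -t)) =
            ∑ b : Bool, ber p b * Ex (ber p) (fun Z : X × Fin K → Bool => ∏ x, Real.exp
            (if F (val (Function.update σ i (some b)) Z) x =
              decide (∃ k, val (Function.update σ i (some b)) Z (x, k) = true) then t else -t)) := by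
          rw [Ex_sum]
          exact Finset.sum_congr rfl fun b _ => Ex_smul _ _ _
        rw [h4]
        have h5 : ∀ b : Bool, ∏ x, cs p t (Function.update σ i (some b)) x =
            cs p t (Function.update σ i (some b)) i.1 * ∏ x ∈ univ.erase i.1, cs p t σ x := by
          intro b
          rw [← Finset.mul_prod_erase univ _ (Finset.mem_univ i.1)]
          congr 1
          refine Finset.prod_congr rfl fun x hx => ?_
          have hxi : x ≠ i.1 := (Finset.mem_erase.1 hx).1
          have hk : ∀ k : Fin K, Function.update σ i (some b) (x, k) = σ (x, k) := by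
            intro k
            rw [Function.update_of_ne]
            intro h6
            exact hxi (by rw [← h6])
          unfold cs
          simp only [hk]
        have h6 : ∏ x, cs p t σ x = cs p t σ i.1 * ∏ x ∈ univ.erase i.1, cs p t σ x :=
          (Finset.mul_prod_erase univ _ (Finset.mem_univ i.1)).symm
        calc ∑ b : Bool, ber p b * Ex (ber p) (fun Z : X × Fin K → Bool => ∏ x, Real.exp
            (if F (val (Function.update σ i (some b)) Z) x =
              decide (∃ k, val (Function.update σ i (some b)) Z (x, k) = true) then t else -t))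
            ≤ ∑ b : Bool, ber p b * ((1 + 9 * p) ^ d *
                ∏ x, cs p t (Function.update σ i (some b)) x) :=
              Finset.sum_le_sum fun b _ =>
                mul_le_mul_of_nonneg_left (h2 b) (ber_nonneg_m hp0 hp1 b)
          _ = (1 + 9 * p) ^ d * ((∑ b : Bool, ber p b *
                cs p t (Function.update σ i (some b)) i.1) *
                  ∏ x ∈ univ.erase i.1, cs p t σ x) := by
              rw [Finset.sum_mul, Finset.mul_sum]
              refine Finset.sum_congr rfl fun b _ => ?_
              rw [h5 b]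
              ring
          _ ≤ (1 + 9 * p) ^ d * (((1 + 9 * p) * cs p t σ i.1) *
                  ∏ x ∈ univ.erase i.1, cs p t σ x) := by
              refine mul_le_mul_of_nonneg_left ?_ (by positivity)
              refine mul_le_mul_of_nonneg_right (cs_step hp0 hp1 ht0 ht1 σ i hs) ?_
              exact Finset.prod_nonneg fun x _ => zero_le_one.trans (one_le_cs ht0 σ x)
          _ = (1 + 9 * p) ^ (d + 1) * ∏ x, cs p t σ x := by
              rw [h6, pow_succ]
              ring
      · -- the answer is known
        have h2 : DTv d (fun Z => F (val σ Z)) := by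
          have h3 := h true
          simp only [val_update_some hs] at h3
          exact h3
        refine (ih σ h2).trans ?_
        rw [pow_succ]
        have h4 : 0 ≤ (1 + 9 * p) ^ d * ∏ x, cs p t σ x := mul_nonneg (by positivity) (hpos σ)
        nlinarith

end Pool.Agent.J6H31.AV
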