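import Pool.Agent.J6H49.CN.Final
import Pool.Agent.J6H31.AV.Block

/-!
# The table of the marked strings and the language
-/

set_option autoImplicit false

namespace Pool.Agent.J6H31.AV

open Pool.Agent.NPC Pool.Agent.H620R2.Gauge Pool.Agent.H622R2 Pool.Agent.H591R3.PHG
open Pool.Agent.J6H7.RO LangTrAux Filter H568R2 Pool.Agent.H676
open Pool.Agent.J6H49.EE (padE LinExp poly_repl)
open Pool.Agent.H622R2.Exp.A4 (poly_two_pow poly_allid)

/-! ### The number of the marked strings -/

theorem exists_num (m : ℕ) : ∃ K : ℕ, K ≤ 2 ^ m ∧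
    |(1 - ((1 : ℝ) / 2) ^ m) ^ K - 1 / 2| ≤ (1 / 2) ^ m := by
  set p : ℝ := (1 / 2) ^ m with hp
  have hp0 : 0 < p := by positivity
  have hp1 : p ≤ 1 := pow_le_one₀ (by norm_num) (by norm_num)
  have hex : (1 - p) ^ (2 ^ m) ≤ 1 / 2 := by
    have h1 : 1 - p ≤ Real.exp (-p) := by
      have := Real.add_one_le_exp (-p)
      linarith
    have h2 : (1 - p) ^ (2 ^ m) ≤ Real.exp (-p) ^ (2 ^ m) :=
      pow_le_pow_left₀ (by linarith) h1 _
    rw [← Real.exp_nat_mul] at h2
    have h3 : ((2 ^ m : ℕ) : ℝ) * -p = -1 := by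
      rw [hp]
      push_cast
      rw [mul_neg, ← mul_pow]
      norm_num
    rw [h3, Real.exp_neg] at h2
    refine h2.trans ?_
    have h4 : (2 : ℝ) ≤ Real.exp 1 := by
      have := Real.add_one_le_exp (1 : ℝ)
      linarith
    rw [one_div]
    exact inv_anti₀ (by norm_num) h4
  have hex2 : ∃ K : ℕ, (1 - p) ^ K ≤ 1 / 2 := ⟨_, hex⟩
  classical
  refine ⟨Nat.find hex2, Nat.find_min' hex2 hex, ?_⟩
  have h5 := Nat.find_spec hex2
  have h6 : Nat.find hex2 ≠ 0 := by
    intro h
    rw [h] at h5
    norm_num at h5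
  obtain ⟨k, hk⟩ := Nat.exists_eq_succ_of_ne_zero h6
  have h7 : ¬ (1 - p) ^ k ≤ 1 / 2 := Nat.find_min hex2 (by omega)
  rw [hk] at h5 ⊢
  rw [Nat.succ_eq_add_one, pow_succ] at h5 ⊢
  push Not at h7
  have h8 : (1 - p) ^ k ≤ 1 := pow_le_one₀ (by linarith) (by linarith)
  rw [abs_le]
  constructor
  · nlinarith
  · linarith

/-- the number of the marked strings of length `m` -/
noncomputable def KK (m : ℕ) : ℕ := (exists_num m).choose

theorem KK_le (m : ℕ) : KK m ≤ 2 ^ m := (exists_num m).choose_spec.1

theorem KK_spec (m : ℕ) : |(1 - ((1 : ℝ) / 2) ^ m) ^ KK m - 1 / 2| ≤ (1 / 2) ^ m :=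
  (exists_num m).choose_spec.2

open Classical in
/-- The table: the string `w` is marked for `x` if it is one of the first strings of length
`μ |x|`. -/
noncomputable def tab (μ : ℕ → ℕ) : Oracle := fun q =>
  decide (∃ k < KK (μ (unpair q).1.length), (unpair q).2 = bitsOf (μ (unpair q).1.length) k)

theorem tab_iff (μ : ℕ → ℕ) (x w : List Bool) : tab μ (pairBits x w) = true ↔
    ∃ k < KK (μ x.length), w = bitsOf (μ x.length) k := by
  unfold tab
  rw [decide_eq_true_iff, unpair_pairBits]

/-- the string for the `j`-th bit of the block of `w` for `x` -/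
def cd (x w : List Bool) (j : ℕ) : List Bool :=
  pairBits x (pairBits w (List.replicate (2 ^ (x.length + 1) + j) true))

/-- **The language.** -/
def hardA (μ : ℕ → ℕ) (A : Oracle) : Set (List Bool) :=
  {x | ∃ w, tab μ (pairBits x w) = true ∧ ∀ j < w.length, A (cd x w j) = true}

/-- the questions of the verifier -/
def vq (pre : List Bool) (y : List Bool) (l : ℕ) : List Bool :=
  pre ++ pairBits (unpair (unpair y).2).1 (pairBits (unpair y).1
    (List.replicate (min (2 ^ ((unpair (unpair y).2).1.length + 1)) y.length) true ++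
      List.replicate (min l y.length) true))

/-- the questions of the verifier -/
def vqs (pre pre' : List Bool) (y : List Bool) : List (List Bool) :=
  (pre' ++ pairBits (unpair (unpair y).2).1 (unpair y).1) ::
    (List.range (unpair y).1.length).map (vq pre y)

theorem poly_vq (pre : List Bool) : Poly (fun p : List Bool × ℕ => vq pre p.1 p.2) := by
  have h2 : UPoly (fun x : List Bool => x.length) := UPoly.length Poly.id
  have h3 : UPoly (fun p : List Bool × ℕ => min p.2 p.1.length) :=
    UPoly.of_le (Poly.min (Poly.snd Poly.id) (Poly.length (Poly.fst Poly.id)))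
      (h2.comp (Poly.fst Poly.id)) (fun p => min_le_right _ _)
  have h4 : Poly (fun p : List Bool × ℕ => unpair p.1) := poly_unpair.comp (Poly.fst Poly.id)
  have h5 : Poly (fun p : List Bool × ℕ => (unpair (unpair p.1).2).1) :=
    Poly.fst (poly_unpair.comp (Poly.snd h4))
  have h6 : UPoly (fun y : List Bool × ℕ => (unpair (unpair y.1).2).1.length + 1) := by
    have h := UPoly.eval (UPoly.length h5) (Polynomial.X + 1)
    simpa using h
  have h7 : UPoly (fun z : List Bool × ℕ => min (2 ^ ((unpair (unpair z.1).2).1.length + 1))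
      z.1.length) :=
    UPoly.of_le (Poly.min (poly_two_pow h6) (Poly.length (Poly.fst Poly.id)))
      (h2.comp (Poly.fst Poly.id)) fun y => min_le_right _ _
  exact Poly.append (NPC.Poly.const pre) (poly_pairBits h5 (poly_pairBits (Poly.fst h4)
    (Poly.append (poly_repl h7) (poly_repl h3))))

theorem poly_vqs (pre pre' : List Bool) : Poly (vqs pre pre') := by
  have h4 : Poly (fun p : List Bool => unpair p) := poly_unpair
  have h1 : Poly (fun z : List Bool => (unpair (unpair z).2).1) :=
    Poly.fst (poly_unpair.comp (Poly.snd h4))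
  have h5 : UPoly (fun z : List Bool => (unpair z).1.length) := UPoly.length (Poly.fst h4)
  exact Poly.cons (Poly.append (NPC.Poly.const pre') (poly_pairBits h1 (Poly.fst h4)))
    (NPC.Poly.map (F := fun x l => vq pre x l) h5.range (poly_vq pre))

/-- the verifier -/
def vv (B : Oracle) (pre pre' : List Bool) (y : List Bool) : List Bool :=
  [((vqs pre pre' y).map B).all id]

theorem isFP_vv (B : Oracle) (pre pre' : List Bool) : IsFP B (vv B pre pre') := by
  have h2 : Poly (fun p : List Bool × List Bool => [p.2.all id]) :=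
    Poly.cons (poly_allid (Poly.snd Poly.id)) (NPC.Poly.const [])
  exact IsFP.tt (A := B) (H := fun p => [p.2.all id]) (poly_vqs pre pre') h2

theorem vv_iff {B A : Oracle} {μ : ℕ → ℕ} {pre pre' : List Bool}
    (hA : ∀ q, B (pre ++ q) = A q) (hT : ∀ q, B (pre' ++ q) = tab μ q) (x w : List Bool) :
    vv B pre pre' (pairBits w (padE 1 x)) = [true] ↔
      tab μ (pairBits x w) = true ∧ ∀ j < w.length, A (cd x w j) = true := by
  have h1 : unpair (pairBits w (padE 1 x)) = (w, padE 1 x) := unpair_pairBits _ _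
  have h2 : (unpair (padE 1 x)).1 = x := by
    unfold padE
    rw [unpair_pairBits]
  have hlen : 2 ^ (x.length + 1) + w.length ≤ (pairBits w (padE 1 x)).length := by
    unfold padE
    rw [Pool.Agent.H620R2.Gauge.length_pairBits, Pool.Agent.H620R2.Gauge.length_pairBits,
      List.length_replicate, one_mul]
    omega
  have hlen1 : 2 ^ (x.length + 1) ≤ (pairBits w (padE 1 x)).length :=
    (Nat.le_add_right _ _).trans hlen
  have hlen2 : w.length ≤ (pairBits w (padE 1 x)).length := (Nat.le_add_left _ _).trans hlen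
  have h3 : ∀ j < w.length, B (vq pre (pairBits w (padE 1 x)) j) = A (cd x w j) := by
    intro j hj
    unfold vq cd
    rw [h1]
    dsimp only
    rw [h2, hA, min_eq_left hlen1, min_eq_left (hj.le.trans hlen2), List.replicate_add]
  unfold vv vqs
  simp only [List.cons.injEq, and_true, List.map_cons, List.all_cons, Bool.and_eq_true, id]
  rw [h1]
  dsimp only
  rw [h2, hT]
  refine and_congr Iff.rfl ?_
  rw [List.all_eq_true]
  constructor
  · intro h j hj
    rw [← h3 j hj]
    exact h (B (vq pre (pairBits w (padE 1 x)) j)) (by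
      simp only [List.mem_map, List.mem_range]
      exact ⟨_, ⟨j, hj, rfl⟩, rfl⟩)
  · intro h b hb
    simp only [List.mem_map, List.mem_range] at hb
    obtain ⟨q, ⟨j, hj, rfl⟩, rfl⟩ := hb
    show B _ = true
    rw [h3 j hj]
    exact h j hj

/-- the verifier with the exact number of the guessed bits -/
theorem hardA_guess {B A : Oracle} {μ : ℕ → ℕ} {pre pre' : List Bool}
    (hA : ∀ q, B (pre ++ q) = A q) (hT : ∀ q, B (pre' ++ q) = tab μ q) :
    ∃ V : List Bool → List Bool, IsFP B V ∧
      ∀ x, x ∈ hardA μ A ↔ ∃ y : List Bool, y.length = μ x.length ∧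
        V (pairBits y (padE 1 x)) = [true] := by
  refine ⟨vv B pre pre', isFP_vv B pre pre', fun x => ?_⟩
  show (∃ w, _ ∧ _) ↔ _
  refine exists_congr fun w => ?_
  rw [vv_iff hA hT]
  constructor
  · intro h
    refine ⟨?_, h⟩
    obtain ⟨k, _, hk⟩ := (tab_iff μ x w).1 h.1
    rw [hk, length_bitsOf]
  · exact fun h => h.2

/-- the language is in nondeterministic linear-exponential time -/
theorem hardA_sig {B A : Oracle} {μ : ℕ → ℕ} (hμ : ∀ n, μ n ≤ 2 ^ (n + 1))
    {pre pre' : List Bool} (hA : ∀ q, B (pre ++ q) = A q)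
    (hT : ∀ q, B (pre' ++ q) = tab μ q) : LinExp (IsSig B 1) (hardA μ A) := by
  refine ⟨1, {z | Quant ((Polynomial.X : Polynomial ℕ).eval z.length) (vv B pre pre') 1 true z},
    ⟨vv B pre pre', Polynomial.X, isFP_vv B pre pre', fun x => Iff.rfl⟩, fun x => ?_⟩
  rw [Set.mem_ofPred_eq, Polynomial.eval_X]
  show (∃ w, _ ∧ _) ↔ ∃ w : List Bool, w.length ≤ _ ∧ vv B pre pre' (pairBits w (padE 1 x)) = [true]
  refine exists_congr fun w => ?_
  rw [vv_iff hA hT]
  constructor
  · intro h
    refine ⟨?_, h⟩
    obtain ⟨k, _, hk⟩ := (tab_iff μ x w).1 h.1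
    rw [hk, length_bitsOf]
    unfold padE
    rw [Pool.Agent.H620R2.Gauge.length_pairBits, List.length_replicate, one_mul]
    have := hμ x.length
    omega
  · exact fun h => h.2

end Pool.Agent.J6H31.AV
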